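import Pool.Agent.Helper86.TK.Defs

open Set Filter Topology

namespace Pool.Agent.Helper86.TK

theorem c0_ind_zero_or (x : ℕ → Bool) (n : ℕ) (t : T) : ind x n t = 0 ∨ ind x n t = 1 := by
  unfold ind
  split_ifs
  · right; rfl
  · left; rfl

theorem c0_ind_one (x : ℕ → Bool) (n : ℕ) (t : T) :
    ind x n t = 1 ↔ n ≤ t.length ∧ t = nd x t.length := by
  unfold ind
  split_ifs with h
  · exact ⟨fun _ => h, fun _ => rfl⟩
  · exact ⟨fun h2 => absurd h2 (by norm_num), fun h2 => absurd h2 h⟩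

theorem c0_nd_get (x y : ℕ → Bool) (m n : ℕ) (hn : n < m) (h : nd x m = nd y m) : x n = y n := by
  unfold nd at h
  have h2 := congrArg (fun l : List Bool => l[n]?) h
  simpa [List.getElem?_map, List.getElem?_range hn] using h2

theorem c0_bound {Γ : Type} (r : Γ → ℕ → Bool) (hr : Function.Injective r) (F : Finset Γ)
    (f g : Γ → ℕ) : ∃ N : ℕ, (∀ x ∈ F, f x ≤ N) ∧ (∀ x ∈ F, g x ≤ N) ∧
      ∀ x ∈ F, ∀ y ∈ F, x ≠ y → ∀ m, N ≤ m → nd (r x) m ≠ nd (r y) m := by
  classical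
  have hd : ∀ x y : Γ, ∃ n : ℕ, x ≠ y → r x n ≠ r y n := by
    intro x y
    by_cases h : x = y
    · exact ⟨0, fun h2 => absurd h h2⟩
    · have h2 : r x ≠ r y := fun h3 => h (hr h3)
      obtain ⟨n, hn⟩ := Function.ne_iff.mp h2
      exact ⟨n, fun _ => hn⟩
  choose n hn using hd
  refine ⟨F.sup f + F.sup g + F.sup (fun x => F.sup (fun y => n x y)) + 1, ?_, ?_, ?_⟩
  · intro x hx
    have := Finset.le_sup (f := f) hx
    omega
  · intro x hx
    have := Finset.le_sup (f := g) hx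
    omega
  · intro x hx y hy hxy m hm h
    have h1 : n x y ≤ F.sup (fun y => n x y) := Finset.le_sup (f := fun y => n x y) hy
    have h2 : F.sup (fun y => n x y) ≤ F.sup (fun x => F.sup (fun y => n x y)) :=
      Finset.le_sup (f := fun x => F.sup (fun y => n x y)) hx
    exact hn x y hxy (c0_nd_get _ _ m _ (by omega) h)

theorem c0_lemA {Γ : Type} (h2 : ST_SVAL) (r : Γ → ℕ → Bool) (η : Γ → ℝ) (hP : Par r η)
    (G : Set Γ) (f : Γ → ℕ) (hG : Sep r G f) (a : Γ → ℝ) (c : Γ →₀ ℝ) (ε : ℝ) (hε : 0 ≤ ε)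
    (hac : ∀ x, |a x - c x| ≤ ε) (t : T)
    (ht1 : ∀ x ∈ c.support, ind (r x) 0 t = 1 → f x ≤ t.length)
    (ht2 : ∀ x ∈ c.support, ∀ y ∈ c.support, x ≠ y → ind (r x) 0 t = 1 → ind (r y) 0 t = 0)
    [DecidablePred (· ∈ G)] :
    |S r η G f a t - ∑ x ∈ c.support.filter (· ∈ G), c x * η x * ind (r x) 0 t| ≤ ε := by
  classical
  have key : ∀ y ∈ c.support, y ∈ G → ind (r y) 0 t ≠ 0 → ind (r y) (f y) t = 1 := by
    intro y hy hyG hy0
    have h3 : ind (r y) 0 t = 1 := (c0_ind_zero_or _ _ _).resolve_left hy0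
    have h4 := ht1 y hy h3
    rw [c0_ind_one] at h3 ⊢
    exact ⟨h4, h3.2⟩
  have hη : ∀ x, |η x| ≤ 1 := by
    intro x
    rw [abs_of_pos (hP.2 x).1]
    exact (hP.2 x).2
  rcases h2 Γ r η G f hG t with ⟨x, hxG, hx1, hS⟩ | ⟨hz, hS⟩
  · rw [hS a]
    have hx0 : ind (r x) 0 t = 1 := by
      rw [c0_ind_one] at hx1 ⊢
      exact ⟨Nat.zero_le _, hx1.2⟩
    by_cases hxF : x ∈ c.support
    · have hsum : ∑ y ∈ c.support.filter (· ∈ G), c y * η y * ind (r y) 0 t = c x * η x := by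
        rw [Finset.sum_eq_single x]
        · rw [hx0, mul_one]
        · intro y hy hyx
          rw [ht2 x hxF y (Finset.mem_filter.mp hy).1 (Ne.symm hyx) hx0, mul_zero]
        · intro hx
          exact absurd (Finset.mem_filter.mpr ⟨hxF, hxG⟩) hx
      rw [hsum, ← sub_mul, abs_mul]
      calc |a x - c x| * |η x| ≤ ε * 1 := mul_le_mul (hac x) (hη x) (abs_nonneg _) hε
        _ = ε := mul_one _
    · have hsum : ∑ y ∈ c.support.filter (· ∈ G), c y * η y * ind (r y) 0 t = 0 := by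
        apply Finset.sum_eq_zero
        intro y hy
        have hy' := Finset.mem_filter.mp hy
        by_cases hy0 : ind (r y) 0 t = 0
        · rw [hy0, mul_zero]
        · have h5 := key y hy'.1 hy'.2 hy0
          have hyx : y ≠ x := fun h => hxF (h ▸ hy'.1)
          have h6 := hG y hy'.2 x hxG hyx t
          rw [h5, hx1] at h6
          norm_num at h6
      have hcx : c x = 0 := by
        by_contra h
        exact hxF (Finsupp.mem_support_iff.mpr h)
      have h7 := hac x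
      rw [hcx, sub_zero] at h7
      rw [hsum, sub_zero, abs_mul]
      calc |a x| * |η x| ≤ ε * 1 := mul_le_mul h7 (hη x) (abs_nonneg _) hε
        _ = ε := mul_one _
  · have hsum : ∑ y ∈ c.support.filter (· ∈ G), c y * η y * ind (r y) 0 t = 0 := by
      apply Finset.sum_eq_zero
      intro y hy
      have hy' := Finset.mem_filter.mp hy
      by_cases hy0 : ind (r y) 0 t = 0
      · rw [hy0, mul_zero]
      · have h5 := key y hy'.1 hy'.2 hy0
        rw [hz y hy'.2] at h5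
        norm_num at h5
    rw [hsum, hS a]
    simpa using hε

theorem c0_lemB {Γ : Type} (r : Γ → ℕ → Bool) (η : Γ → ℝ) (hP : Par r η)
    (G : Set Γ) (a : Γ → ℝ) (c : Γ →₀ ℝ) (ε : ℝ) (hε : 0 ≤ ε)
    (hac : ∀ x, |a x - c x| ≤ ε) (t : T) (haG : ∀ x, x ∉ G → a x = 0)
    (ht2 : ∀ x ∈ c.support, ∀ y ∈ c.support, x ≠ y → ind (r x) 0 t = 1 → ind (r y) 0 t = 0)
    [DecidablePred (· ∈ G)] :
    |∑ x ∈ c.support.filter (fun x => ¬ x ∈ G), c x * η x * ind (r x) 0 t| ≤ ε := by
  classical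
  have hη : ∀ x, |η x| ≤ 1 := by
    intro x
    rw [abs_of_pos (hP.2 x).1]
    exact (hP.2 x).2
  by_cases hex : ∃ x ∈ c.support, x ∉ G ∧ ind (r x) 0 t = 1
  · obtain ⟨x, hxF, hxG, hx0⟩ := hex
    have hsum : ∑ y ∈ c.support.filter (fun x => ¬ x ∈ G), c y * η y * ind (r y) 0 t
        = c x * η x := by
      rw [Finset.sum_eq_single x]
      · rw [hx0, mul_one]
      · intro y hy hyx
        rw [ht2 x hxF y (Finset.mem_filter.mp hy).1 (Ne.symm hyx) hx0, mul_zero]
      · intro hx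
        exact absurd (Finset.mem_filter.mpr ⟨hxF, hxG⟩) hx
    have h7 := hac x
    rw [haG x hxG, zero_sub, abs_neg] at h7
    rw [hsum, abs_mul]
    calc |c x| * |η x| ≤ ε * 1 := mul_le_mul h7 (hη x) (abs_nonneg _) hε
      _ = ε := mul_one _
  · have hsum : ∑ y ∈ c.support.filter (fun x => ¬ x ∈ G), c y * η y * ind (r y) 0 t = 0 := by
      apply Finset.sum_eq_zero
      intro y hy
      have hy' := Finset.mem_filter.mp hy
      rcases c0_ind_zero_or (r y) 0 t with h | h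
      · rw [h, mul_zero]
      · exact absurd ⟨y, hy'.1, hy'.2, h⟩ hex
    rw [hsum, abs_zero]
    exact hε

theorem st_C0 (h1 : ST_MEM) (h2 : ST_SVAL) : ST_C0 := by
  intro Γ r η hP G₀ G₁ f g hdis hS0 hS1 p hp hsupp
  classical
  unfold Null
  rw [Metric.tendsto_nhds]
  intro ε hε
  obtain ⟨c, D, hc, hD⟩ := h1 Γ r η hP p hp (ε / 5) (by positivity)
  obtain ⟨N, hNf, hNg, hN⟩ := c0_bound r hP.1 c.support f g
  have hfin : (((D : Set T) ∪ ⋃ x ∈ c.support, (nd (r x)) '' (Set.Iio N))).Finite := by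
    refine Set.Finite.union (Finset.finite_toSet D) ?_
    refine Set.Finite.biUnion (Finset.finite_toSet c.support) ?_
    intro x _
    exact (Set.finite_Iio N).image _
  filter_upwards [hfin.compl_mem_cofinite] with t ht
  have htD : t ∉ D := fun h => ht (Or.inl h)
  have htN : ∀ x ∈ c.support, ind (r x) 0 t = 1 → N ≤ t.length := by
    intro x hx hx1
    by_contra hlt
    apply ht
    right
    rw [c0_ind_one] at hx1
    refine Set.mem_biUnion (Finset.mem_coe.mpr hx) ?_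
    exact ⟨t.length, not_le.mp hlt, hx1.2.symm⟩
  have ht2 : ∀ x ∈ c.support, ∀ y ∈ c.support, x ≠ y → ind (r x) 0 t = 1 →
      ind (r y) 0 t = 0 := by
    intro x hx y hy hxy hx1
    rcases c0_ind_zero_or (r y) 0 t with h | h
    · exact h
    · exfalso
      have h3 := htN x hx hx1
      rw [c0_ind_one] at hx1 h
      exact hN x hx y hy hxy t.length h3 (hx1.2.symm.trans h.2)
  have hA0 := c0_lemA h2 r η hP G₀ f hS0 (fun x => p.1 x) c (ε / 5) (by positivity) hc t
    (fun x hx hx1 => (hNf x hx).trans (htN x hx hx1)) ht2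
  have hA1 := c0_lemA h2 r η hP G₁ g hS1 (fun x => p.1 x) c (ε / 5) (by positivity) hc t
    (fun x hx hx1 => (hNg x hx).trans (htN x hx hx1)) ht2
  have hB := c0_lemB r η hP (G₀ ∪ G₁) (fun x => p.1 x) c (ε / 5) (by positivity) hc t
    hsupp ht2
  have hsplit : ∑ x ∈ c.support, c x * η x * ind (r x) 0 t =
      ∑ x ∈ c.support.filter (· ∈ G₀), c x * η x * ind (r x) 0 t +
      ∑ x ∈ c.support.filter (· ∈ G₁), c x * η x * ind (r x) 0 t +
      ∑ x ∈ c.support.filter (fun x => ¬ x ∈ G₀ ∪ G₁), c x * η x * ind (r x) 0 t := by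
    rw [← Finset.sum_filter_add_sum_filter_not c.support (fun x => x ∈ G₀ ∪ G₁)]
    congr 1
    rw [← Finset.sum_union]
    · congr 1
      ext x
      simp only [Finset.mem_filter, Finset.mem_union, Set.mem_union]
      tauto
    · rw [Finset.disjoint_left]
      intro x hx hx'
      exact (Set.disjoint_left.mp hdis) (Finset.mem_filter.mp hx).2 (Finset.mem_filter.mp hx').2
  have hM := hD t htD
  rw [hsplit] at hM
  have hA0' := abs_le.mp hA0
  have hA1' := abs_le.mp hA1
  have hB' := abs_le.mp hB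
  have hM' := abs_le.mp hM
  rw [Real.dist_eq, sub_zero]
  unfold SS
  have hgoal : |p.2 t - (S r η G₀ f (fun x => p.1 x) t + S r η G₁ g (fun x => p.1 x) t)| < ε := by
    rw [abs_lt]
    constructor <;> linarith [hA0'.1, hA0'.2, hA1'.1, hA1'.2, hB'.1, hB'.2, hM'.1, hM'.2]
  exact hgoal

end Pool.Agent.Helper86.TK
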